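import Pool.Agent.Helper77.SGC.Goals
import Pool.Agent.Helper29.BL.PS

/-!
# Project SG (MP_a41896_nt), part 2, packet KEYP: the key inequality
-/

set_option autoImplicit false

open MvPolynomial

namespace Pool.Agent.Helper30.SGC

open WeierstrassCurve Height
open Pool.Agent.Helper29.BL Pool.Agent.Helper92.Ru Pool.Agent.Helper42.SG
open Pool.Agent.Helper77.SGC

section frame

variable {K : Type} [Field K] {v : AbsoluteValue K ℝ} {A : Type} [CommRing A] [Algebra K A]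
  {N : A → ℝ → Prop}

theorem nzero (h : NFr v N) : N 0 0 := by
  have := h.const 0
  rwa [map_zero, map_zero] at this

theorem none' (h : NFr v N) : N 1 1 := by
  have := h.const 1
  rwa [map_one, map_one] at this

theorem npow (h : NFr v N) {f : A} {T : ℝ} (hf : N f T) (k : ℕ) : N (f ^ k) (T ^ k) := by
  induction k with
  | zero => simpa using none' h
  | succ k ih => rw [pow_succ, pow_succ]; exact h.mul _ _ _ _ ih hf

theorem nsum (h : NFr v N) {ι : Type} (S : Finset ι) (f : ι → A) (T : ℝ) (hT : 0 ≤ T)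
    (hf : ∀ i ∈ S, N (f i) T) : N (∑ i ∈ S, f i) (cst v (S.card : ℝ) * T) := by
  classical
  by_cases hv : IsNonarchimedean v
  · rw [cst_of_nonarch hv, one_mul]
    induction S using Finset.induction_on with
    | empty => simpa using h.mono _ _ _ (nzero h) hT
    | insert i S hi ih =>
      rw [Finset.sum_insert hi]
      have := h.max hv _ _ _ _ (hf i (by simp)) (ih fun j hj => hf j (by simp [hj]))
      rwa [max_self] at this
  · rw [cst_of_not_nonarch hv]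
    induction S using Finset.induction_on with
    | empty => simpa using nzero h
    | insert i S hi ih =>
      rw [Finset.sum_insert hi, Finset.card_insert_of_notMem hi]
      have := h.add _ _ _ _ (hf i (by simp)) (ih fun j hj => hf j (by simp [hj]))
      push_cast
      have e : ((S.card : ℝ) + 1) * T = T + S.card * T := by ring
      rw [e]; exact this

theorem frK (v : AbsoluteValue K ℝ) : NFr (A := K) v (fun f T => v f ≤ T) where
  const k := le_of_eq (by simp)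
  mul f g S T hf hg := by
    rw [map_mul]
    exact mul_le_mul hf hg (v.nonneg g) ((v.nonneg f).trans hf)
  add f g S T hf hg := (v.add_le f g).trans (add_le_add hf hg)
  max hv f g S T hf hg := (hv f g).trans (max_le_max hf hg)
  mono f S T hf hST := hf.trans hST
  nonneg f T hf := (v.nonneg f).trans hf

end frame

theorem card_idx (M e : ℕ) :
    Fintype.card (Idx 1 M 1 (fun _ => e)) = (4 ^ e * (M + 1)) ^ 2 := by
  simp [Idx]

section coeff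

variable {K : Type} [Field K]

theorem sh_bd {W : Affine K} {B : AbsoluteValue K ℝ → ℝ} {D e M : ℕ}
    {G : Bool → ℕ → Fin 2 → ℕ → ℕ → K} (hG : Arr W B D e M G) (v : AbsoluteValue K ℝ)
    (hB : 1 ≤ B v) (l : Bool) (μ : Fin 2) (j g i m : ℕ) (hm : m ≤ M) :
    v (sh G l μ j g i m) ≤ B v ^ (4 ^ e * M) := by
  unfold sh
  split_ifs with h
  · exact hG.bd l m hm v μ _ g
  · rw [map_zero]
    positivity

theorem sh_deg {W : Affine K} {B : AbsoluteValue K ℝ → ℝ} {D e M : ℕ}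
    {G : Bool → ℕ → Fin 2 → ℕ → ℕ → K} (hG : Arr W B D e M G) (l : Bool) (μ : Fin 2)
    (j g i m : ℕ) (hm : m ≤ M) (hi : i < 4 ^ e) (h : sh G l μ j g i m ≠ 0) :
    j + 2 * μ.val ≤ N0 M e ∧ g + 2 * μ.val ≤ 2 * M := by
  unfold sh at h
  split_ifs at h with h'
  · have := hG.deg l m hm μ _ g h
    unfold N0
    omega
  · exact absurd rfl h

theorem cf_bd {W : ℕ → Affine K} {B0 B1 : AbsoluteValue K ℝ → ℝ} {D0 D1 e M : ℕ}
    {G G' : Bool → ℕ → Fin 2 → ℕ → ℕ → K} (hG : Arr (W 0) B0 D0 e M G)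
    (hG' : Arr (W 1) B1 D1 e M G') (v : AbsoluteValue K ℝ) (hB0 : 1 ≤ B0 v) (hB1 : 1 ≤ B1 v)
    (c : Idx 1 M 1 (fun _ => e) → K) (s : ℝ) (hs : 0 ≤ s) (hc : ∀ α, v (c α) ≤ s)
    (l l' : Bool) (μ μ' : Fin 2) (j j' g g' : ℕ) :
    v (cf M e G G' c l l' μ μ' j j' g g') ≤ cst v (((4 ^ e * (M + 1)) ^ 2 : ℕ) : ℝ) *
      (s * (B0 v ^ (4 ^ e * M) * B1 v ^ (4 ^ e * M))) := by
  have hB0' : 0 ≤ B0 v := zero_le_one.trans hB0
  have hB1' : 0 ≤ B1 v := zero_le_one.trans hB1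
  have := nsum (frK v) (Finset.univ : Finset (Idx 1 M 1 (fun _ => e)))
    (fun α => c α * (sh G l μ j g (α.1 ⟨0, by norm_num⟩).1.val (α.1 ⟨0, by norm_num⟩).2.val *
      sh G' l' μ' j' g' (α.1 ⟨1, by norm_num⟩).1.val (α.1 ⟨1, by norm_num⟩).2.val))
    (s * (B0 v ^ (4 ^ e * M) * B1 v ^ (4 ^ e * M))) (by positivity) (by
      intro α _
      simp only [map_mul]
      refine mul_le_mul (hc α) (mul_le_mul ?_ ?_ (v.nonneg _) (by positivity))
        (mul_nonneg (v.nonneg _) (v.nonneg _)) hs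
      · exact sh_bd hG v hB0 _ _ _ _ _ _ (by have := (α.1 ⟨0, by norm_num⟩).2.isLt; omega)
      · exact sh_bd hG' v hB1 _ _ _ _ _ _ (by have := (α.1 ⟨1, by norm_num⟩).2.isLt; omega))
  rw [Finset.card_univ, card_idx] at this
  exact this

theorem cf_deg {W : ℕ → Affine K} {B0 B1 : AbsoluteValue K ℝ → ℝ} {D0 D1 e M : ℕ}
    {G G' : Bool → ℕ → Fin 2 → ℕ → ℕ → K} (hG : Arr (W 0) B0 D0 e M G)
    (hG' : Arr (W 1) B1 D1 e M G') (c : Idx 1 M 1 (fun _ => e) → K)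
    (l l' : Bool) (μ μ' : Fin 2) (j j' g g' : ℕ)
    (h : cf M e G G' c l l' μ μ' j j' g g' ≠ 0) :
    j + 2 * μ.val ≤ N0 M e ∧ g + 2 * μ.val ≤ 2 * M ∧ j' + 2 * μ'.val ≤ N0 M e ∧
      g' + 2 * μ'.val ≤ 2 * M := by
  unfold cf at h
  obtain ⟨α, -, hα⟩ := Finset.exists_ne_zero_of_sum_ne_zero h
  have h1 := right_ne_zero_of_mul hα
  have h2 := left_ne_zero_of_mul h1
  have h3 := right_ne_zero_of_mul h1
  have d1 := sh_deg hG _ _ _ _ _ _ (by have := (α.1 ⟨0, by norm_num⟩).2.isLt; omega)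
    (by have := (α.1 ⟨0, by norm_num⟩).1.isLt; exact this) h2
  have d2 := sh_deg hG' _ _ _ _ _ _ (by have := (α.1 ⟨1, by norm_num⟩).2.isLt; omega)
    (by have := (α.1 ⟨1, by norm_num⟩).1.isLt; exact this) h3
  exact ⟨d1.1, d1.2, d2.1, d2.2⟩

end coeff

/-- the constant -/
noncomputable def ZZ (M : ℕ) : ℝ :=
  4 * ((2 * M + 2 : ℕ) : ℝ) ^ 2 * ((2 * M + 1 : ℕ) : ℝ) ^ 2 * ((M + 1 : ℕ) : ℝ) ^ 2

theorem one_le_ZZ (M : ℕ) : 1 ≤ ZZ M := by
  unfold ZZ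
  have h1 : (1 : ℝ) ≤ ((2 * M + 2 : ℕ) : ℝ) ^ 2 := by
    apply one_le_pow₀; exact_mod_cast (by omega : 1 ≤ 2 * M + 2)
  have h2 : (1 : ℝ) ≤ ((2 * M + 1 : ℕ) : ℝ) ^ 2 := by
    apply one_le_pow₀; exact_mod_cast (by omega : 1 ≤ 2 * M + 1)
  have h3 : (1 : ℝ) ≤ ((M + 1 : ℕ) : ℝ) ^ 2 := by
    apply one_le_pow₀; exact_mod_cast (by omega : 1 ≤ M + 1)
  nlinarith [mul_le_mul h1 h2 zero_le_one (by positivity), mul_le_mul (mul_le_mul h1 h2 zero_le_one (by positivity)) h3 zero_le_one (by positivity)]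

theorem count (M e : ℕ) :
    (2 : ℝ) * (2 * (((N0 M e + 1 : ℕ) : ℝ) * (((N0 M e + 1 : ℕ) : ℝ) * (((2 * M + 1 : ℕ) : ℝ) *
      (((2 * M + 1 : ℕ) : ℝ) * (((4 ^ e * (M + 1)) ^ 2 : ℕ) : ℝ)))))) ≤ (16 * ZZ M) ^ (4 ^ e) := by
  set q : ℕ := 4 ^ e with hq
  have hq1 : 1 ≤ q := Nat.one_le_pow _ _ (by norm_num)
  have hN : N0 M e + 1 ≤ q * (2 * M + 2) := by
    unfold N0
    rw [← hq]
    nlinarith
  have hN' : ((N0 M e + 1 : ℕ) : ℝ) ≤ (q : ℝ) * ((2 * M + 2 : ℕ) : ℝ) := by exact_mod_cast hN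
  have hlhs : (2 : ℝ) * (2 * (((N0 M e + 1 : ℕ) : ℝ) * (((N0 M e + 1 : ℕ) : ℝ) *
      (((2 * M + 1 : ℕ) : ℝ) * (((2 * M + 1 : ℕ) : ℝ) * (((q * (M + 1)) ^ 2 : ℕ) : ℝ)))))) ≤
      (q : ℝ) ^ 4 * ZZ M := by
    have e1 : (2 : ℝ) * (2 * (((N0 M e + 1 : ℕ) : ℝ) * (((N0 M e + 1 : ℕ) : ℝ) *
      (((2 * M + 1 : ℕ) : ℝ) * (((2 * M + 1 : ℕ) : ℝ) * (((q * (M + 1)) ^ 2 : ℕ) : ℝ)))))) =
      ((N0 M e + 1 : ℕ) : ℝ) ^ 2 * (4 * ((2 * M + 1 : ℕ) : ℝ) ^ 2 *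
        ((q : ℝ) ^ 2 * ((M + 1 : ℕ) : ℝ) ^ 2)) := by
      push_cast; ring
    have e2 : (q : ℝ) ^ 4 * ZZ M = ((q : ℝ) * ((2 * M + 2 : ℕ) : ℝ)) ^ 2 *
      (4 * ((2 * M + 1 : ℕ) : ℝ) ^ 2 * ((q : ℝ) ^ 2 * ((M + 1 : ℕ) : ℝ) ^ 2)) := by
      unfold ZZ; ring
    rw [e1, e2]
    apply mul_le_mul_of_nonneg_right _ (by positivity)
    exact pow_le_pow_left₀ (by positivity) hN' 2
  refine hlhs.trans ?_
  rw [mul_pow]
  have h1 : (q : ℝ) ^ 4 ≤ 16 ^ q := by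
    have : (q : ℝ) ≤ 2 ^ q := by exact_mod_cast Nat.lt_two_pow_self.le
    calc (q : ℝ) ^ 4 ≤ (2 ^ q) ^ 4 := pow_le_pow_left₀ (by positivity) this 4
      _ = 16 ^ q := by rw [← pow_mul, mul_comm, pow_mul]; norm_num
  have h2 : ZZ M ≤ ZZ M ^ q := le_self_pow₀ (one_le_ZZ M) (by omega)
  exact mul_le_mul h1 h2 (zero_le_one.trans (one_le_ZZ M)) (by positivity)

theorem term_bd (h1 : MON) (a0 a1 a2 a3 b : ℝ) (M k0 e : ℕ) (ha0 : 1 ≤ a0) (ha1 : 1 ≤ a1)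
    (ha2 : 1 ≤ a2) (ha3 : 1 ≤ a3) (hb : 1 ≤ b) (μ μ' j j' g g' : ℕ) (hμ : μ ≤ 1) (hμ' : μ' ≤ 1)
    (d1 : j + 2 * μ ≤ N0 M e) (d2 : g + 2 * μ ≤ 2 * M) (d3 : j' + 2 * μ' ≤ N0 M e)
    (d4 : g' + 2 * μ' ≤ 2 * M) (d5 : (j + 2 * μ) + (j' + 2 * μ') + k0 * 4 ^ e ≤ 2 * N0 M e) :
    (b * a0 ^ 2 * (b * a2 ^ 2)) ^ μ * (b * a1 ^ 2 * (b * a3 ^ 2)) ^ μ' * (a0 ^ j * a1 ^ j') *
      (a2 ^ g * a3 ^ g') ≤ b ^ 4 * ((a0 * a1) ^ (2 * 4 ^ e * M + 4 ^ e) * (a2 * a3) ^ (2 * M) /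
        (min a0 a1) ^ (k0 * 4 ^ e)) := by
  have m := h1 a0 a1 (j + 2 * μ) (j' + 2 * μ') (k0 * 4 ^ e) (N0 M e) ha0 ha1 d1 d3 d5
  have e1 : (b * a0 ^ 2 * (b * a2 ^ 2)) ^ μ * (b * a1 ^ 2 * (b * a3 ^ 2)) ^ μ' *
      (a0 ^ j * a1 ^ j') * (a2 ^ g * a3 ^ g') = b ^ (2 * μ + 2 * μ') *
        (a0 ^ (j + 2 * μ) * a1 ^ (j' + 2 * μ')) * (a2 ^ (g + 2 * μ) * a3 ^ (g' + 2 * μ')) := by
    simp only [mul_pow, pow_add, pow_mul]
    have : (b ^ 2) ^ μ = b ^ μ * b ^ μ := by rw [← pow_mul, mul_comm, pow_mul, _root_.sq]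
    have h' : (b ^ 2) ^ μ' = b ^ μ' * b ^ μ' := by rw [← pow_mul, mul_comm, pow_mul, _root_.sq]
    rw [this, h']
    ring
  rw [e1]
  have p0 : 0 < a0 := by linarith
  have p1 : 0 < a1 := by linarith
  have p2 : 0 < a2 := by linarith
  have p3 : 0 < a3 := by linarith
  have pb : 0 < b := by linarith
  have s1 : b ^ (2 * μ + 2 * μ') ≤ b ^ 4 := pow_le_pow_right₀ hb (by omega)
  have s2 : a2 ^ (g + 2 * μ) ≤ a2 ^ (2 * M) := pow_le_pow_right₀ ha2 d2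
  have s3 : a3 ^ (g' + 2 * μ') ≤ a3 ^ (2 * M) := pow_le_pow_right₀ ha3 d4
  have e2 : b ^ 4 * ((a0 * a1) ^ (2 * 4 ^ e * M + 4 ^ e) * (a2 * a3) ^ (2 * M) /
        (min a0 a1) ^ (k0 * 4 ^ e)) = b ^ 4 * ((a0 * a1) ^ (N0 M e) / (min a0 a1) ^ (k0 * 4 ^ e)) *
          (a2 ^ (2 * M) * a3 ^ (2 * M)) := by
    unfold N0
    rw [mul_pow a2 a3]
    ring
  rw [e2]
  refine mul_le_mul (mul_le_mul s1 m (by positivity) (by positivity))
    (mul_le_mul s2 s3 (by positivity) (by positivity)) (by positivity) ?_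
  exact mul_nonneg (by positivity) (le_trans (by positivity) m)

theorem keyp (h0 : EXPC) (h1 : MON) : KEYP := by
  intro K _ _ W B0 B1 D0 D1 M k0 hB0 hB1
  refine ⟨fun v => cst v (16 * ZZ M) * (B0 v * B1 v) ^ M, ⟨?_, ?_⟩, ?_⟩
  · intro v
    have h16 : (1 : ℝ) ≤ 16 * ZZ M := by linarith [one_le_ZZ M]
    have a1 := one_le_cst v h16
    have a2 : 1 ≤ (B0 v * B1 v) ^ M := one_le_pow₀ (one_le_mul_of_one_le_of_one_le (hB0.1 v) (hB1.1 v))
    exact one_le_mul_of_one_le_of_one_le a1 a2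
  · have h16 : (1 : ℝ) ≤ 16 * ZZ M := by linarith [one_le_ZZ M]
    have : (fun v : AbsoluteValue K ℝ => Real.log (cst v (16 * ZZ M) * (B0 v * B1 v) ^ M)) =
        fun v => Real.log (cst v (16 * ZZ M)) + M * (Real.log (B0 v) + Real.log (B1 v)) := by
      funext v
      have b0 := hB0.1 v
      have b1 := hB1.1 v
      rw [Real.log_mul (cst_pos v h16).ne' (by positivity), Real.log_pow,
        Real.log_mul (by positivity) (by positivity)]
    rw [this]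
    exact (FS_log_cst _).add ((hB0.2.add hB1.2).const_mul _)
  intro e G G' hG hG' f c hcond v A _ _ N hN X Ψ a s b hW hf ha hb hX hΨ hc lam
  have b0 := hB0.1 v
  have b1 := hB1.1 v
  have hs : 0 ≤ s := by
    have hne : Nonempty (Idx 1 M 1 (fun _ => e)) := by
      apply Fintype.card_pos_iff.1
      rw [card_idx]
      positivity
    obtain ⟨α⟩ := hne
    exact (v.nonneg _).trans (hc α)
  have ha0 := ha 0 (by norm_num)
  have ha1 := ha 1 (by norm_num)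
  have ha2 := ha 2 (by norm_num)
  have ha3 := ha 3 (by norm_num)
  have hkey0 : 0 ≤ keyC M k0 e a := by
    unfold keyC
    have : 0 < min (a 0) (a 1) := lt_min (by linarith) (by linarith)
    positivity
  set T : ℝ := cst v (((4 ^ e * (M + 1)) ^ 2 : ℕ) : ℝ) *
      (s * (B0 v ^ (4 ^ e * M) * B1 v ^ (4 ^ e * M))) * (b ^ 4 * keyC M k0 e a) with hT
  have hcst0 : 0 ≤ cst v (((4 ^ e * (M + 1)) ^ 2 : ℕ) : ℝ) := by
    apply (cst_pos v _).le
    exact_mod_cast Nat.one_le_iff_ne_zero.2 (by positivity)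
  have hT0 : 0 ≤ T := by
    rw [hT]
    have : 0 ≤ B0 v := by linarith
    have : 0 ≤ B1 v := by linarith
    have : 0 ≤ b := by linarith
    positivity
  rw [h0 K W B0 B1 D0 D1 e M G G' hG hG' c A X Ψ hW lam]
  -- one term
  have hterm : ∀ μ μ' : Fin 2, ∀ j j' : ℕ,
      N (((Ψ 0 * Ψ 2) ^ μ.val * (Ψ 1 * Ψ 3) ^ μ'.val * (X 0 ^ j * X 1 ^ j')) *
        ∑ g ∈ Finset.range (2 * M + 1), ∑ g' ∈ Finset.range (2 * M + 1),
          algebraMap K A (cf M e G G' c (lam 0) (lam 1) μ μ' j j' g g') *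
            (X 2 ^ g * X 3 ^ g'))
        (cst v ((2 * M + 1 : ℕ) : ℝ) * (cst v ((2 * M + 1 : ℕ) : ℝ) * T)) := by
    intro μ μ' j j'
    have hc1 : 0 ≤ cst v ((2 * M + 1 : ℕ) : ℝ) := by
      apply (cst_pos v _).le
      exact_mod_cast (by omega : 1 ≤ 2 * M + 1)
    by_cases hF : Forb M k0 e μ μ' j j'
    · have hz : ∑ g ∈ Finset.range (2 * M + 1), ∑ g' ∈ Finset.range (2 * M + 1),
          algebraMap K A (cf M e G G' c (lam 0) (lam 1) μ μ' j j' g g') *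
            (X 2 ^ g * X 3 ^ g') = 0 := by
        obtain ⟨r, hr⟩ := hcond (lam 0) (lam 1) μ μ' j j' hF
        have := congrArg (aeval (pr (X 2) (X 3))) hr
        rw [map_mul, hf, zero_mul, map_sum] at this
        rw [← this]
        apply Finset.sum_congr rfl
        intro g _
        rw [map_sum]
        apply Finset.sum_congr rfl
        intro g' _
        simp [pr]
      rw [hz, mul_zero]
      exact hN.mono _ _ _ (nzero hN) (by positivity)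
    · rw [Finset.mul_sum]
      have := nsum hN (Finset.range (2 * M + 1)) (fun g =>
        ((Ψ 0 * Ψ 2) ^ μ.val * (Ψ 1 * Ψ 3) ^ μ'.val * (X 0 ^ j * X 1 ^ j')) *
          ∑ g' ∈ Finset.range (2 * M + 1),
            algebraMap K A (cf M e G G' c (lam 0) (lam 1) μ μ' j j' g g') *
              (X 2 ^ g * X 3 ^ g')) (cst v ((2 * M + 1 : ℕ) : ℝ) * T) (by positivity) ?_
      · rw [Finset.card_range] at this
        exact this
      intro g _
      simp only [Finset.mul_sum]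
      have := nsum hN (Finset.range (2 * M + 1)) (fun g' =>
        ((Ψ 0 * Ψ 2) ^ μ.val * (Ψ 1 * Ψ 3) ^ μ'.val * (X 0 ^ j * X 1 ^ j')) *
            (algebraMap K A (cf M e G G' c (lam 0) (lam 1) μ μ' j j' g g') *
              (X 2 ^ g * X 3 ^ g'))) T hT0 ?_
      · rw [Finset.card_range] at this
        exact this
      intro g' _
      by_cases hcf : cf M e G G' c (lam 0) (lam 1) μ μ' j j' g g' = 0
      · rw [hcf, map_zero, zero_mul, mul_zero]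
        exact hN.mono _ _ _ (nzero hN) hT0
      obtain ⟨d1, d2, d3, d4⟩ := cf_deg hG hG' c _ _ _ _ _ _ _ _ hcf
      have d5 : (j + 2 * μ.val) + (j' + 2 * μ'.val) + k0 * 4 ^ e ≤ 2 * N0 M e := by
        by_contra hcon
        exact hF ⟨d1, d3, not_le.1 hcon⟩
      have n1 : N (((Ψ 0 * Ψ 2) ^ μ.val * (Ψ 1 * Ψ 3) ^ μ'.val * (X 0 ^ j * X 1 ^ j')) *
            (algebraMap K A (cf M e G G' c (lam 0) (lam 1) μ μ' j j' g g') *
              (X 2 ^ g * X 3 ^ g')))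
          (((b * a 0 ^ 2 * (b * a 2 ^ 2)) ^ μ.val * (b * a 1 ^ 2 * (b * a 3 ^ 2)) ^ μ'.val *
            (a 0 ^ j * a 1 ^ j')) *
              (v (cf M e G G' c (lam 0) (lam 1) μ μ' j j' g g') * (a 2 ^ g * a 3 ^ g'))) := by
        refine hN.mul _ _ _ _ (hN.mul _ _ _ _ (hN.mul _ _ _ _ (npow hN (hN.mul _ _ _ _
          (hΨ 0 (by norm_num)) (hΨ 2 (by norm_num))) _) (npow hN (hN.mul _ _ _ _
          (hΨ 1 (by norm_num)) (hΨ 3 (by norm_num))) _)) (hN.mul _ _ _ _ (npow hN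
            (hX 0 (by norm_num)) _) (npow hN (hX 1 (by norm_num)) _))) ?_
        exact hN.mul _ _ _ _ (hN.const _) (hN.mul _ _ _ _ (npow hN (hX 2 (by norm_num)) _)
          (npow hN (hX 3 (by norm_num)) _))
      refine hN.mono _ _ _ n1 ?_
      have t := term_bd h1 (a 0) (a 1) (a 2) (a 3) b M k0 e ha0 ha1 ha2 ha3 hb μ.val μ'.val j j' g g'
        (by omega) (by omega) d1 d2 d3 d4 d5
      have cb := cf_bd hG hG' v b0 b1 c s hs hc (lam 0) (lam 1) μ μ' j j' g g'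
      have e3 : ((b * a 0 ^ 2 * (b * a 2 ^ 2)) ^ μ.val * (b * a 1 ^ 2 * (b * a 3 ^ 2)) ^ μ'.val *
            (a 0 ^ j * a 1 ^ j')) *
              (v (cf M e G G' c (lam 0) (lam 1) μ μ' j j' g g') * (a 2 ^ g * a 3 ^ g')) =
          v (cf M e G G' c (lam 0) (lam 1) μ μ' j j' g g') *
            ((b * a 0 ^ 2 * (b * a 2 ^ 2)) ^ μ.val * (b * a 1 ^ 2 * (b * a 3 ^ 2)) ^ μ'.val *
            (a 0 ^ j * a 1 ^ j') * (a 2 ^ g * a 3 ^ g')) := by ring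
      rw [e3, hT]
      have p0 : 0 < a 0 := by linarith
      have p1 : 0 < a 1 := by linarith
      have p2 : 0 < a 2 := by linarith
      have p3 : 0 < a 3 := by linarith
      have pb : 0 < b := by linarith
      refine mul_le_mul cb t (by positivity) ((v.nonneg _).trans cb)
  have hN1 : 0 ≤ cst v ((N0 M e + 1 : ℕ) : ℝ) := by
    apply (cst_pos v _).le
    exact_mod_cast (by omega : 1 ≤ N0 M e + 1)
  have h21 : 0 ≤ cst v ((2 * M + 1 : ℕ) : ℝ) := by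
    apply (cst_pos v _).le
    exact_mod_cast (by omega : 1 ≤ 2 * M + 1)
  have h20 : 0 ≤ cst v ((2 : ℕ) : ℝ) := by
    apply (cst_pos v _).le
    norm_num
  set T1 : ℝ := cst v ((2 * M + 1 : ℕ) : ℝ) * (cst v ((2 * M + 1 : ℕ) : ℝ) * T) with hT1
  have hT10 : 0 ≤ T1 := by positivity
  have hsum : N (∑ μ : Fin 2, ∑ μ' : Fin 2, ∑ j ∈ Finset.range (N0 M e + 1),
          ∑ j' ∈ Finset.range (N0 M e + 1),
            ((Ψ 0 * Ψ 2) ^ μ.val * (Ψ 1 * Ψ 3) ^ μ'.val * (X 0 ^ j * X 1 ^ j')) *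
              ∑ g ∈ Finset.range (2 * M + 1), ∑ g' ∈ Finset.range (2 * M + 1),
                algebraMap K A (cf M e G G' c (lam 0) (lam 1) μ μ' j j' g g') *
                  (X 2 ^ g * X 3 ^ g'))
      (cst v ((2 : ℕ) : ℝ) * (cst v ((2 : ℕ) : ℝ) * (cst v ((N0 M e + 1 : ℕ) : ℝ) *
        (cst v ((N0 M e + 1 : ℕ) : ℝ) * T1)))) := by
    have c2 : (Finset.univ : Finset (Fin 2)).card = 2 := rfl
    have cN : (Finset.range (N0 M e + 1)).card = N0 M e + 1 := Finset.card_range _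
    have A1 := fun (f : Fin 2 → A) (T : ℝ) (hT : 0 ≤ T) (h : ∀ i, N (f i) T) =>
      nsum hN (Finset.univ : Finset (Fin 2)) f T hT (fun i _ => h i)
    have A2 := fun (f : ℕ → A) (T : ℝ) (hT : 0 ≤ T) (h : ∀ i, N (f i) T) =>
      nsum hN (Finset.range (N0 M e + 1)) f T hT (fun i _ => h i)
    simp only [c2] at A1
    simp only [cN] at A2
    refine A1 _ _ (by positivity) fun μ => ?_
    refine A1 _ _ (by positivity) fun μ' => ?_
    refine A2 _ _ (by positivity) fun j => ?_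
    refine A2 _ _ (by positivity) fun j' => ?_
    exact hterm μ μ' j j'
  refine hN.mono _ _ _ hsum ?_
  have e4 : cst v ((2 : ℕ) : ℝ) * (cst v ((2 : ℕ) : ℝ) * (cst v ((N0 M e + 1 : ℕ) : ℝ) *
        (cst v ((N0 M e + 1 : ℕ) : ℝ) * T1))) =
      cst v ((2 : ℝ) * (2 * (((N0 M e + 1 : ℕ) : ℝ) * (((N0 M e + 1 : ℕ) : ℝ) *
        (((2 * M + 1 : ℕ) : ℝ) * (((2 * M + 1 : ℕ) : ℝ) *
          (((4 ^ e * (M + 1)) ^ 2 : ℕ) : ℝ))))))) * (B0 v * B1 v) ^ (M * 4 ^ e) *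
            (s * b ^ 4 * keyC M k0 e a) := by
    simp only [cst_mul]
    rw [hT1, hT, mul_pow, mul_comm (4 ^ e) M]
    push_cast
    ring
  rw [e4]
  have e5 : s * b ^ 4 * (cst v (16 * ZZ M) * (B0 v * B1 v) ^ M) ^ (4 ^ e) * keyC M k0 e a =
      cst v ((16 * ZZ M) ^ (4 ^ e)) * (B0 v * B1 v) ^ (M * 4 ^ e) *
        (s * b ^ 4 * keyC M k0 e a) := by
    rw [mul_pow (cst v (16 * ZZ M)), ← cst_pow, ← pow_mul (B0 v * B1 v)]
    ring
  have e6 : s * b ^ 4 * (fun v => cst v (16 * ZZ M) * (B0 v * B1 v) ^ M) v ^ (4 ^ e) *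
      keyC M k0 e a = s * b ^ 4 * (cst v (16 * ZZ M) * (B0 v * B1 v) ^ M) ^ (4 ^ e) *
        keyC M k0 e a := rfl
  rw [e6, e5]
  have pb : 0 < b := by linarith
  have p0 : 0 < B0 v := by linarith
  have p1 : 0 < B1 v := by linarith
  apply mul_le_mul_of_nonneg_right _ (by positivity)
  apply mul_le_mul_of_nonneg_right _ (by positivity)
  exact cst_mono v (count M e)

end Pool.Agent.Helper30.SGC
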